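import Pool.Agent.Helper92.TN.GoalsH
import Pool.Agent.Helper41.ZH.SEPV

/-!
# Project TN (MP_a41896_nt), packet TN-NRMP: elimination of the square roots and of one coordinate
-/

set_option autoImplicit false

open MvPolynomial

namespace Pool.Agent.Helper76.TN.NRMP

open WeierstrassCurve
open Pool.Agent.Helper29.BL Pool.Agent.Helper92.Ru Pool.Agent.Helper42.SG
open Pool.Agent.Helper92.ZH

noncomputable section

/-! ## Degrees of a determinant -/

lemma degreeOf_det_le {K V : Type} [Field K] {s : ℕ}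
    (B : Matrix (Fin s) (Fin s) (MvPolynomial V K)) (h : V) (b : Fin s → ℕ)
    (hb : ∀ i j, (B i j).degreeOf h ≤ b j) : B.det.degreeOf h ≤ ∑ j, b j := by
  classical
  rw [Matrix.det_apply]
  refine (degreeOf_sum_le _ _ _).trans (Finset.sup_le fun τ _ => ?_)
  have h1 : (Equiv.Perm.sign τ • ∏ i, B (τ i) i).degreeOf h = (∏ i, B (τ i) i).degreeOf h := by
    rcases Int.units_eq_one_or (Equiv.Perm.sign τ) with h2 | h2
    · rw [h2, one_smul]
    · rw [h2, Units.neg_smul, one_smul, degreeOf_neg]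
  rw [h1]
  exact (degreeOf_prod_le _ _ _).trans (Finset.sum_le_sum fun i _ => hb _ _)

/-! ## Elimination of one variable -/

theorem elim {K : Type} [Field K] {V : Type} [Fintype V] [DecidableEq V] (h0 : V)
    (g Q : MvPolynomial V K) (N : ℕ) (hQ : Q.degreeOf h0 ≤ N) :
    ∃ R : MvPolynomial V K, R.degreeOf h0 = 0 ∧
      (∀ h, R.degreeOf h ≤ (N + 1) * g.degreeOf h + g.degreeOf h0 * Q.degreeOf h) ∧
      (∀ x : V → K, eval x g = 0 → eval x Q = 0 → eval x R = 0) ∧
      ∀ (Ω : Type) [Field Ω] [Algebra K Ω] [IsAlgClosed Ω] (x : V → Ω),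
        aeval x (sepV h0 g).leadingCoeff ≠ 0 →
        (∀ t : Ω, aeval (Function.update x h0 t) g = 0 →
          aeval (Function.update x h0 t) Q ≠ 0) → aeval x R ≠ 0 := by
  classical
  obtain ⟨gdeg, gco, gle, gz, gev, gX⟩ := Pool.Agent.Helper41.ZH.SEPV.t K V h0 g
  obtain ⟨Qdeg, Qco, Qle, Qz, Qev, QX⟩ := Pool.Agent.Helper41.ZH.SEPV.t K V h0 Q
  obtain ⟨P, hP⟩ : ∃ P, P = sepV h0 g := ⟨_, rfl⟩
  obtain ⟨P', hP'⟩ : ∃ P', P' = sepV h0 Q := ⟨_, rfl⟩
  rw [← hP] at gdeg gle gz gev gX ⊢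
  rw [← hP'] at Qdeg Qle Qz Qev QX
  obtain ⟨D, hD⟩ : ∃ D, D = g.degreeOf h0 := ⟨_, rfl⟩
  rw [← hD] at gdeg ⊢
  obtain ⟨R, hR⟩ : ∃ R : MvPolynomial V K, R = Polynomial.resultant P P' D (N + 1) := ⟨_, rfl⟩
  have hentry : ∀ (F : MvPolynomial V K → Prop), F 0 → (∀ k, F (P.coeff k)) →
      (∀ k, F (P'.coeff k)) → ∀ i j, F (Polynomial.sylvester P P' D (N + 1) i j) := by
    intro F hF0 hFP hFP' i j
    unfold Polynomial.sylvester
    rw [Matrix.of_apply]
    induction j using Fin.addCases with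
    | left j =>
      rw [Fin.addCases_left]
      split_ifs
      · exact hFP' _
      · exact hF0
    | right j =>
      rw [Fin.addCases_right]
      split_ifs
      · exact hFP _
      · exact hF0
  refine ⟨R, ?_, ?_, ?_, ?_⟩
  · have h5 := degreeOf_det_le (Polynomial.sylvester P P' D (N + 1)) h0 (fun _ => 0)
      (fun i j => le_of_eq (hentry (fun F => F.degreeOf h0 = 0) (degreeOf_zero _) gz Qz i j))
    rw [Finset.sum_const_zero] at h5
    rw [hR]
    exact Nat.le_zero.1 h5
  · intro h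
    have h5 := degreeOf_det_le (Polynomial.sylvester P P' D (N + 1)) h
      (fun j => Fin.addCases (motive := fun _ => ℕ) (fun _ => Q.degreeOf h)
        (fun _ => g.degreeOf h) j) (by
        intro i j
        unfold Polynomial.sylvester
        rw [Matrix.of_apply]
        induction j using Fin.addCases with
        | left j =>
          rw [Fin.addCases_left, Fin.addCases_left]
          split_ifs
          · exact Qle _ _
          · rw [degreeOf_zero]; exact Nat.zero_le _
        | right j =>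
          rw [Fin.addCases_right, Fin.addCases_right]
          split_ifs
          · exact gle _ _
          · rw [degreeOf_zero]; exact Nat.zero_le _)
    rw [Fin.sum_univ_add] at h5
    simp only [Fin.addCases_left, Fin.addCases_right, Finset.sum_const, Finset.card_univ,
      Fintype.card_fin, smul_eq_mul] at h5
    rw [hR]
    refine h5.trans (le_of_eq ?_)
    ring
  · intro x hx1 hx2
    obtain ⟨p, q, -, -, hpq⟩ := Polynomial.exists_mul_add_mul_eq_C_resultant P P'
      (m := D) (n := N + 1) (le_of_eq gdeg) ((Qdeg.le.trans hQ).trans (Nat.le_succ N))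
      (Or.inr (by omega))
    have h5 := congrArg (Polynomial.eval (X h0 : MvPolynomial V K)) hpq
    rw [Polynomial.eval_add, Polynomial.eval_mul, Polynomial.eval_mul, Polynomial.eval_C, gX,
      QX, ← hR] at h5
    rw [← h5, map_add, map_mul, map_mul, hx1, hx2]
    ring
  · intro Ω _ _ _ x hx ht
    obtain ⟨φ, hφ⟩ : ∃ φ : MvPolynomial V K →+* Ω,
      φ = (aeval x : MvPolynomial V K →ₐ[K] Ω).toRingHom := ⟨_, rfl⟩
    have h5 : aeval x R = Polynomial.resultant (P.map φ) (P'.map φ) D (N + 1) := by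
      rw [Polynomial.resultant_map_map, hR, hφ]
      rfl
    have hlead : φ P.leadingCoeff ≠ 0 := by
      rw [hφ]
      exact hx
    have hdeg : (P.map φ).natDegree = D := by
      rw [Polynomial.natDegree_map_of_leadingCoeff_ne_zero _ hlead, gdeg]
    have h6 := Polynomial.resultant_eq_prod_eval (P.map φ) (P'.map φ) (N + 1)
      (Polynomial.natDegree_map_le.trans ((Qdeg.le.trans hQ).trans (Nat.le_succ N)))
      (IsAlgClosed.splits _)
    rw [hdeg] at h6
    rw [h5, h6]
    refine mul_ne_zero (pow_ne_zero _ ?_) ?_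
    · rw [Polynomial.leadingCoeff_map_of_leadingCoeff_ne_zero _ hlead]
      exact hlead
    · rw [Ne, Multiset.prod_eq_zero_iff, Multiset.mem_map]
      rintro ⟨t, ht1, ht2⟩
      have h7 : (P.map φ).eval t = 0 := (Polynomial.mem_roots'.1 ht1).2
      have h8 := gev Ω x t
      have h9 := Qev Ω x t
      rw [← hφ] at h8 h9
      exact ht t (h8.symm.trans h7) (h9.symm.trans ht2)

/-! ## Elimination of the square roots -/

/-- the relation `U_b² = B_b(X_b)` -/
def fb {K σ : Type} [Field K] (W : σ → WeierstrassCurve K) (b : σ) : MvPolynomial (σ ⊕ σ) K :=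
  X (Sum.inr b) ^ 2 - (C 4 * X (Sum.inl b) ^ 3 + C (W b).b₂ * X (Sum.inl b) ^ 2 +
    C (2 * (W b).b₄) * X (Sum.inl b) + C (W b).b₆)

lemma aeval_fb {K σ A : Type} [Field K] [CommRing A] [Algebra K A] (W : σ → WeierstrassCurve K)
    (b : σ) (x : σ ⊕ σ → A) :
    aeval x (fb W b) = x (Sum.inr b) ^ 2 - Bf ((W b).map (algebraMap K A)) (x (Sum.inl b)) := by
  simp only [fb, Bf, map_sub, map_add, map_mul, map_pow, aeval_X, aeval_C,
    WeierstrassCurve.map_b₂, WeierstrassCurve.map_b₄, WeierstrassCurve.map_b₆, map_ofNat]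

lemma eval_fb {K σ : Type} [Field K] (W : σ → WeierstrassCurve K)
    (b : σ) (x : σ ⊕ σ → K) :
    eval x (fb W b) = x (Sum.inr b) ^ 2 - Bf (W b) (x (Sum.inl b)) := by
  simp only [fb, Bf, map_sub, map_add, map_mul, map_pow, eval_X, eval_C]

lemma sepV_fb {K σ : Type} [Field K] [DecidableEq σ] (W : σ → WeierstrassCurve K)
    (b : σ) : ∃ c : MvPolynomial (σ ⊕ σ) K,
      sepV (Sum.inr b) (fb W b) = Polynomial.X ^ 2 - Polynomial.C c := by
  refine ⟨C 4 * X (Sum.inl b) ^ 3 + C (W b).b₂ * X (Sum.inl b) ^ 2 +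
    C (2 * (W b).b₄) * X (Sum.inl b) + C (W b).b₆, ?_⟩
  unfold sepV fb
  have h1 : (Sum.inl b : σ ⊕ σ) ≠ Sum.inr b := by simp
  simp only [map_sub, map_add, map_mul, map_pow, aeval_X, aeval_C, if_true, if_neg h1]
  rfl

lemma lead_fb {K σ : Type} [Field K] [DecidableEq σ] (W : σ → WeierstrassCurve K)
    (b : σ) : (sepV (Sum.inr b) (fb W b)).leadingCoeff = 1 := by
  obtain ⟨c, hc⟩ := sepV_fb W b
  rw [hc]
  exact (Polynomial.monic_X_pow_sub_C c (by norm_num)).leadingCoeff

lemma fb_ne {K σ : Type} [Field K] [DecidableEq σ] (W : σ → WeierstrassCurve K)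
    (b : σ) : fb W b ≠ 0 := by
  intro h
  have := lead_fb W b
  rw [h, map_zero, Polynomial.leadingCoeff_zero] at this
  exact zero_ne_one this

lemma deg_fb {K σ : Type} [Field K] [DecidableEq σ] [Fintype σ] (W : σ → WeierstrassCurve K)
    (b : σ) : (fb W b).degreeOf (Sum.inr b) = 2 := by
  obtain ⟨h1, -⟩ := Pool.Agent.Helper41.ZH.SEPV.t K (σ ⊕ σ) (Sum.inr b) (fb W b)
  obtain ⟨c, hc⟩ := sepV_fb W b
  rw [← h1, hc]
  exact Polynomial.natDegree_X_pow_sub_C

lemma deg_fb_le {K σ : Type} [Field K] [DecidableEq σ] (W : σ → WeierstrassCurve K)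
    (b : σ) (h : σ ⊕ σ) : (fb W b).degreeOf h ≤ 3 := by
  have hC : ∀ a : K, (C a : MvPolynomial (σ ⊕ σ) K).degreeOf h ≤ 0 := fun a => by
    rw [degreeOf_C]
  have hX : ∀ i : σ ⊕ σ, (X i : MvPolynomial (σ ⊕ σ) K).degreeOf h ≤ 1 := fun i => by
    rw [degreeOf_X]
    split_ifs <;> norm_num
  have hXp : ∀ (i : σ ⊕ σ) (k : ℕ), (X i ^ k : MvPolynomial (σ ⊕ σ) K).degreeOf h ≤ k :=
    fun i k => (degreeOf_pow_le h _ k).trans ((Nat.mul_le_mul_left k (hX i)).trans (by omega))
  have hCX : ∀ (a : K) (i : σ ⊕ σ) (k : ℕ),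
      (C a * X i ^ k : MvPolynomial (σ ⊕ σ) K).degreeOf h ≤ k := fun a i k =>
    (degreeOf_mul_le h _ _).trans (by have := hC a; have := hXp i k; omega)
  unfold fb
  refine (degreeOf_sub_le h _ _).trans (max_le ((hXp _ _).trans (by norm_num)) ?_)
  refine (degreeOf_add_le h _ _).trans (max_le ?_ ((hC _).trans (by norm_num)))
  refine (degreeOf_add_le h _ _).trans (max_le ?_ ?_)
  · exact (degreeOf_add_le h _ _).trans (max_le (hCX _ _ _) ((hCX _ _ _).trans (by norm_num)))
  · have := hCX (2 * (W b).b₄) (Sum.inl b) 1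
    rw [pow_one] at this
    exact this.trans (by norm_num)

lemma deg_fb_ne {K σ : Type} [Field K] [DecidableEq σ] (W : σ → WeierstrassCurve K)
    (b c : σ) (hc : c ≠ b) : (fb W b).degreeOf (Sum.inr c) = 0 := by
  have hC : ∀ a : K, (C a : MvPolynomial (σ ⊕ σ) K).degreeOf (Sum.inr c) = 0 := fun a => by
    rw [degreeOf_C]
  have hX1 : (X (Sum.inl b) : MvPolynomial (σ ⊕ σ) K).degreeOf (Sum.inr c) = 0 := by
    rw [degreeOf_X, if_neg (by simp)]
  have hX2 : (X (Sum.inr b) : MvPolynomial (σ ⊕ σ) K).degreeOf (Sum.inr c) = 0 := by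
    rw [degreeOf_X, if_neg (by simpa using hc)]
  have hXp : ∀ (k : ℕ), (X (Sum.inl b) ^ k : MvPolynomial (σ ⊕ σ) K).degreeOf (Sum.inr c) ≤ 0 :=
    fun k => (degreeOf_pow_le _ _ k).trans (by rw [hX1]; simp)
  have hCX : ∀ (a : K) (k : ℕ),
      (C a * X (Sum.inl b) ^ k : MvPolynomial (σ ⊕ σ) K).degreeOf (Sum.inr c) ≤ 0 := fun a k =>
    (degreeOf_mul_le _ _ _).trans (by have := hC a; have := hXp k; omega)
  apply Nat.le_zero.1
  unfold fb
  refine (degreeOf_sub_le _ _ _).trans (max_le ((degreeOf_pow_le _ _ 2).trans (by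
    rw [hX2])) ?_)
  refine (degreeOf_add_le _ _ _).trans (max_le ?_ (hC _).le)
  refine (degreeOf_add_le _ _ _).trans (max_le ?_ ?_)
  · exact (degreeOf_add_le _ _ _).trans (max_le (hCX _ _) (hCX _ _))
  · have := hCX (2 * (W b).b₄) 1
    rwa [pow_one] at this

/-- the degree bounds -/
def Bd (N : ℕ) : ℕ → ℕ
  | 0 => N
  | k + 1 => 5 * Bd N k + 3

theorem elimU {K σ : Type} [Field K] [Fintype σ] [DecidableEq σ] (W : σ → WeierstrassCurve K)
    (F : MvPolynomial (σ ⊕ σ) K) (N : ℕ) (hF : ∀ h, F.degreeOf h ≤ N) (s : Finset σ) :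
    ∃ R : MvPolynomial (σ ⊕ σ) K, (∀ h, R.degreeOf h ≤ Bd N s.card) ∧
      (∀ b ∈ s, R.degreeOf (Sum.inr b) = 0) ∧
      (∀ x : σ ⊕ σ → K, (∀ b, x (Sum.inr b) ^ 2 = Bf (W b) (x (Sum.inl b))) →
        eval x F = 0 → eval x R = 0) ∧
      ∀ (Ω : Type) [Field Ω] [Algebra K Ω] [IsAlgClosed Ω] (x : σ ⊕ σ → Ω),
        (∀ y : σ ⊕ σ → Ω, (∀ i, y (Sum.inl i) = x (Sum.inl i)) →
          (∀ b, b ∉ s → y (Sum.inr b) = x (Sum.inr b)) →
          (∀ b ∈ s, y (Sum.inr b) ^ 2 = Bf ((W b).map (algebraMap K Ω)) (y (Sum.inl b))) →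
          aeval y F ≠ 0) → aeval x R ≠ 0 := by
  induction s using Finset.induction_on with
  | empty =>
    refine ⟨F, fun h => ?_, fun b hb => absurd hb (Finset.notMem_empty _), fun x _ h => h, ?_⟩
    · rw [Finset.card_empty]
      exact hF h
    · intro Ω _ _ _ x hx
      exact hx x (fun _ => rfl) (fun _ _ => rfl) (fun b hb => absurd hb (Finset.notMem_empty _))
  | insert b s hb ih =>
    obtain ⟨R, hR1, hR2, hR3, hR4⟩ := ih
    obtain ⟨R', h1, h2, h3, h4⟩ := elim (Sum.inr b) (fb W b) R (Bd N s.card) (hR1 _)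
    refine ⟨R', fun h => ?_, fun c hc => ?_, fun x hx hxF => ?_, fun Ω _ _ _ x hx => ?_⟩
    · rw [Finset.card_insert_of_notMem hb]
      refine (h2 h).trans ?_
      rw [deg_fb W b]
      have h5 := deg_fb_le W b h
      have h6 := hR1 h
      have h7 : (Bd N s.card + 1) * (fb W b).degreeOf h ≤ (Bd N s.card + 1) * 3 :=
        Nat.mul_le_mul_left _ h5
      show _ ≤ 5 * Bd N s.card + 3
      omega
    · by_cases hcb : c = b
      · rw [hcb]
        exact h1
      · have hc' : c ∈ s := by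
          rcases Finset.mem_insert.1 hc with h | h
          · exact absurd h hcb
          · exact h
        have h5 := h2 (Sum.inr c)
        rw [deg_fb_ne W b c hcb, hR2 c hc', mul_zero, mul_zero] at h5
        exact Nat.le_zero.1 h5
    · refine h3 x ?_ (hR3 x hx hxF)
      rw [eval_fb, hx b, sub_self]
    · refine h4 Ω x ?_ ?_
      · rw [lead_fb, map_one]
        exact one_ne_zero
      · intro t ht
        refine hR4 Ω _ fun y hy1 hy2 hy3 => ?_
        have hyb : y (Sum.inr b) = t := by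
          rw [hy2 b hb, Function.update_self]
        have hyl : ∀ i, y (Sum.inl i) = x (Sum.inl i) := fun i => by
          rw [hy1 i, Function.update_of_ne (by simp)]
        refine hx y hyl (fun c hc => ?_) (fun c hc => ?_)
        · have hcb : c ≠ b := fun h => hc (h ▸ Finset.mem_insert_self _ _)
          rw [hy2 c (fun h => hc (Finset.mem_insert_of_mem h)),
            Function.update_of_ne (by simpa using hcb)]
        · by_cases hcb : c = b
          · rw [hcb, hyb, hyl b]
            rw [aeval_fb, Function.update_self, Function.update_of_ne (by simp)] at ht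
            exact sub_eq_zero.1 ht
          · have hc' : c ∈ s := by
              rcases Finset.mem_insert.1 hc with h | h
              · exact absurd h hcb
              · exact h
            exact hy3 c hc'

/-! ## The packet -/

lemma degreeOf_rename_notMem {K σ τ : Type} [Field K] (f : σ → τ)
    (p : MvPolynomial σ K) (t : τ) (ht : ∀ i, f i ≠ t) : (rename f p).degreeOf t = 0 := by
  classical
  by_contra h
  have h1 : t ∈ (rename f p).vars := by
    rw [vars_def, Multiset.mem_toFinset]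
    unfold degreeOf at h
    exact Multiset.count_pos.1 (Nat.pos_of_ne_zero h)
  have h2 := vars_rename f p h1
  obtain ⟨i, -, hi⟩ := Finset.mem_image.1 h2
  exact ht i hi

lemma exists_ren {K σ τ : Type} [Field K] (f : σ → τ) (hf : Function.Injective f)
    (p : MvPolynomial τ K) (hp : ∀ t, (∀ i, f i ≠ t) → p.degreeOf t = 0) :
    ∃ q : MvPolynomial σ K, rename f q = p := by
  classical
  refine exists_rename_eq_of_vars_subset_range p f hf fun t ht => ?_
  by_contra hcon
  have h1 : ∀ i, f i ≠ t := fun i hi => hcon ⟨i, hi⟩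
  have h2 := hp t h1
  have h3 : t ∈ p.vars := ht
  rw [vars_def, Multiset.mem_toFinset] at h3
  have h4 : 0 < p.degreeOf t := by
    unfold degreeOf
    exact Multiset.count_pos.2 h3
  omega

theorem t : Pool.Agent.Helper92.TN.NRMP := by
  classical
  intro D0 n
  obtain ⟨N, hN⟩ : ∃ N, N = Bd (D0 + 1) (n + 1) := ⟨_, rfl⟩
  refine ⟨(N + 1) * D0 + D0 * N, ?_⟩
  intro A _ _ σ _ _ W a g lam hcard hg hgD hlam hgen
  obtain ⟨F, hF⟩ : ∃ F : MvPolynomial (σ ⊕ σ) A,
    F = ∑ b, X (Sum.inr b) * rename Sum.inl (lam b) := ⟨_, rfl⟩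
  have hFdeg : ∀ h, F.degreeOf h ≤ D0 + 1 := by
    intro h
    rw [hF]
    refine (degreeOf_sum_le _ _ _).trans (Finset.sup_le fun b _ => ?_)
    refine (degreeOf_mul_le _ _ _).trans ?_
    have h1 : (X (Sum.inr b) : MvPolynomial (σ ⊕ σ) A).degreeOf h ≤ 1 := by
      rw [degreeOf_X]
      split_ifs <;> norm_num
    have h2 : (rename Sum.inl (lam b) : MvPolynomial (σ ⊕ σ) A).degreeOf h ≤ D0 := by
      rcases h with i | i
      · rw [degreeOf_rename_of_injective Sum.inl_injective]
        exact hlam b i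
      · rw [degreeOf_rename_notMem _ _ _ (by simp)]
        exact Nat.zero_le _
    omega
  have hFeval : ∀ (A' : Type) [CommRing A'] [Algebra A A'] (y : σ ⊕ σ → A'),
      aeval y F = ∑ b, y (Sum.inr b) * aeval (fun i => y (Sum.inl i)) (lam b) := by
    intro A' _ _ y
    rw [hF, map_sum]
    refine Finset.sum_congr rfl fun b _ => ?_
    rw [map_mul, aeval_X, aeval_rename]
    rfl
  obtain ⟨R1, hR1, hR2, hR3, hR4⟩ := elimU W F (D0 + 1) hFdeg Finset.univ
  rw [Finset.card_univ, hcard, ← hN] at hR1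
  obtain ⟨g', hg'⟩ : ∃ g' : MvPolynomial (σ ⊕ σ) A, g' = rename Sum.inl g := ⟨_, rfl⟩
  have hg'0 : g' ≠ 0 := by
    rw [hg']
    exact (map_ne_zero_iff _ (rename_injective _ Sum.inl_injective)).2 hg
  have hg'l : ∀ i, g'.degreeOf (Sum.inl i) = g.degreeOf i := fun i => by
    rw [hg', degreeOf_rename_of_injective Sum.inl_injective]
  have hg'r : ∀ i, g'.degreeOf (Sum.inr i) = 0 := fun i => by
    rw [hg', degreeOf_rename_notMem _ _ _ (by simp)]
  obtain ⟨R2, h1, h2, h3, h4⟩ := elim (Sum.inl a) g' R1 N (hR1 _)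
  obtain ⟨j, hj⟩ : ∃ j : {c : σ // c ≠ a} → σ ⊕ σ, j = fun c => Sum.inl c.1 := ⟨_, rfl⟩
  have hjinj : Function.Injective j := by
    intro c d hcd
    rw [hj] at hcd
    exact Subtype.ext (Sum.inl_injective hcd)
  have hjr : ∀ (p : MvPolynomial (σ ⊕ σ) A), p.degreeOf (Sum.inl a) = 0 →
      (∀ i, p.degreeOf (Sum.inr i) = 0) → ∃ q, rename j q = p := by
    intro p hp1 hp2
    refine exists_ren j hjinj p fun t ht => ?_
    rcases t with i | i
    · by_cases hi : i = a
      · rw [hi]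
        exact hp1
      · exact absurd (by rw [hj]) (ht ⟨i, hi⟩)
    · exact hp2 i
  have hR2r : ∀ i, R2.degreeOf (Sum.inr i) = 0 := fun i => by
    have h5 := h2 (Sum.inr i)
    rw [hg'r, hR2 i (Finset.mem_univ i), mul_zero, mul_zero] at h5
    exact Nat.le_zero.1 h5
  obtain ⟨R, hR⟩ := hjr R2 h1 hR2r
  refine ⟨R, ?_, ?_, ?_⟩
  · obtain ⟨A₂, _, _, _, Z, hZ, hne⟩ := hgen
    intro hR0
    obtain ⟨x, hx⟩ : ∃ x : σ ⊕ σ → A₂,
      x = Sum.elim (fun i => if h : i ≠ a then Z ⟨i, h⟩ else 0) (fun _ => 0) := ⟨_, rfl⟩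
    have hxj : ∀ c, x (j c) = Z c := by
      intro c
      rw [hx, hj]
      simp only [Sum.elim_inl]
      rw [dif_pos c.2]
    refine h4 A₂ x ?_ ?_ (by rw [← hR, hR0, map_zero, map_zero])
    · obtain ⟨s1, s2, s3, s4, s5, s6⟩ := Pool.Agent.Helper41.ZH.SEPV.t A (σ ⊕ σ) (Sum.inl a) g'
      have hne0 : sepV (Sum.inl a) g' ≠ 0 := by
        intro h
        rw [h, Polynomial.eval_zero] at s6
        exact hg'0 s6.symm
      obtain ⟨q, hq⟩ := hjr (sepV (Sum.inl a) g').leadingCoeff (s4 _) (fun i => by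
        have h5 := s3 (sepV (Sum.inl a) g').natDegree (Sum.inr i)
        rw [hg'r] at h5
        exact Nat.le_zero.1 h5)
      have hq0 : q ≠ 0 := by
        intro h
        rw [h, map_zero] at hq
        exact Polynomial.leadingCoeff_ne_zero.2 hne0 hq.symm
      rw [← hq, aeval_rename]
      have h6 : x ∘ j = Z := funext hxj
      rw [h6]
      intro h7
      exact hq0 ((algebraicIndependent_iff.1 hZ) q h7)
    · intro t ht
      refine hR4 A₂ _ fun y hy1 _ hy3 => ?_
      rw [hFeval]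
      refine hne (fun i => y (Sum.inl i)) (fun i => y (Sum.inr i)) ?_ ?_ ?_
      · intro c
        show y (Sum.inl c) = Z c
        rw [hy1, Function.update_of_ne (by simpa using c.2), ← hxj c, hj]
      · intro i
        exact hy3 i (Finset.mem_univ i)
      · rw [hg', aeval_rename] at ht
        have h6 : (fun i => y (Sum.inl i)) = Function.update x (Sum.inl a) t ∘ Sum.inl :=
          funext fun i => hy1 i
        rw [h6]
        exact ht
  · intro c
    have h5 := h2 (j c)
    rw [← hR, degreeOf_rename_of_injective hjinj] at h5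
    refine h5.trans ?_
    have h6 : g'.degreeOf (j c) ≤ D0 := by
      rw [hj, hg'l]
      exact hgD _
    have h7 : g'.degreeOf (Sum.inl a) ≤ D0 := by
      rw [hg'l]
      exact hgD _
    exact Nat.add_le_add (Nat.mul_le_mul_left _ h6) (Nat.mul_le_mul h7 (hR1 _))
  · intro Y U hU hY hs
    have h5 : eval (Sum.elim Y U) R2 = 0 := by
      refine h3 _ ?_ (hR3 _ (fun b => hU b) ?_)
      · rw [hg', eval_rename]
        exact hY
      · have h6 := hFeval A (Sum.elim Y U)
        rw [← coe_aeval_eq_eval]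
        show aeval (Sum.elim Y U) F = 0
        rw [h6]
        refine Eq.trans ?_ hs
        refine Finset.sum_congr rfl fun b _ => ?_
        simp only [Sum.elim_inr, Sum.elim_inl]
        rw [← coe_aeval_eq_eval]
        rfl
    rw [← hR, eval_rename] at h5
    refine Eq.trans ?_ h5
    rw [hj]
    rfl

end

end Pool.Agent.Helper76.TN.NRMP
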